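import Mathlib

set_option autoImplicit false

/-!
# Weighted sequences under the critical Derrida-Retaux step (`m = 2`)
-/

namespace Pool.Agent.N935.DR

open Finset Filter Topology

/-- Convolution. -/
noncomputable def conv (u v : ℕ → ℝ) (l : ℕ) : ℝ :=
  ∑ x ∈ Finset.HasAntidiagonal.antidiagonal l, u x.1 * v x.2

lemma conv_zero (u v : ℕ → ℝ) : conv u v 0 = u 0 * v 0 := by simp [conv]

lemma conv_nonneg {u v : ℕ → ℝ} (hu : ∀ k, 0 ≤ u k) (hv : ∀ k, 0 ≤ v k) (l : ℕ) :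
    0 ≤ conv u v l := Finset.sum_nonneg fun x _ => mul_nonneg (hu _) (hv _)

lemma hasSum_conv {u v : ℕ → ℝ} {a b : ℝ} (hu0 : ∀ k, 0 ≤ u k) (hv0 : ∀ k, 0 ≤ v k)
    (hu : HasSum u a) (hv : HasSum v b) : HasSum (conv u v) (a * b) := by
  have hs : Summable fun x : ℕ × ℕ => u x.1 * v x.2 :=
    hu.summable.mul_of_nonneg hv.summable hu0 hv0
  have h1 := summable_sum_mul_antidiagonal_of_summable_mul hs
  have h2 := hu.summable.tsum_mul_tsum_eq_tsum_sum_antidiagonal hv.summable hs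
  rw [hu.tsum_eq, hv.tsum_eq] at h2
  rw [h2]
  exact h1.hasSum

lemma sum_conv_le {u : ℕ → ℝ} (hu0 : ∀ k, 0 ≤ u k) (J : ℕ) :
    ∑ l ∈ Finset.range J, conv u u l ≤ (∑ i ∈ Finset.range J, u i) ^ 2 := by
  have e : ∑ l ∈ Finset.range J, conv u u l =
      ∑ x ∈ (Finset.range J ×ˢ Finset.range J).filter (fun x => x.1 + x.2 < J), u x.1 * u x.2 := by
    rw [← Finset.sum_fiberwise_of_maps_to (t := Finset.range J) (g := fun x : ℕ × ℕ => x.1 + x.2)]
    · refine Finset.sum_congr rfl fun l hl => ?_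
      unfold conv
      refine Finset.sum_congr ?_ fun _ _ => rfl
      ext ⟨a, b⟩
      simp only [Finset.HasAntidiagonal.mem_antidiagonal, Finset.mem_filter, Finset.mem_product, Finset.mem_range]
      rw [Finset.mem_range] at hl
      constructor
      · intro h; omega
      · intro h; omega
    · intro x hx
      simp only [Finset.mem_filter, Finset.mem_range] at hx ⊢
      exact hx.2
  rw [e, sq, Finset.sum_mul_sum, ← Finset.sum_product']
  exact Finset.sum_le_sum_of_subset_of_nonneg (Finset.filter_subset _ _)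
    fun x _ _ => mul_nonneg (hu0 _) (hu0 _)

/-- One step of the recursion for the weighted sequence `u k = 2 ^ k * P(X = k)`. -/
noncomputable def step (u : ℕ → ℝ) (k : ℕ) : ℝ :=
  conv u u (k + 1) / 2 + if k = 0 then u 0 ^ 2 else 0

lemma step_nonneg {u : ℕ → ℝ} (hu0 : ∀ k, 0 ≤ u k) (k : ℕ) : 0 ≤ step u k := by
  have := conv_nonneg hu0 hu0 (k + 1)
  unfold step
  split_ifs <;> positivity

lemma hasSum_shift {f : ℕ → ℝ} {a : ℝ} (h : HasSum f a) : HasSum (fun k => f (k + 1)) (a - f 0) := by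
  have := (hasSum_nat_add_iff' (f := f) 1).2 h
  simpa using this

lemma hasSum_step {u : ℕ → ℝ} {A : ℝ} (hu0 : ∀ k, 0 ≤ u k) (hA : HasSum u A) :
    HasSum (step u) ((A ^ 2 + u 0 ^ 2) / 2) := by
  have h1 := (hasSum_shift (hasSum_conv hu0 hu0 hA hA)).div_const 2
  have h2 : HasSum (fun k : ℕ => if k = 0 then u 0 ^ 2 else 0) (u 0 ^ 2) :=
    hasSum_ite_eq 0 (u 0 ^ 2)
  have h3 := h1.add h2
  rw [conv_zero] at h3
  have e : (A * A - u 0 * u 0) / 2 + u 0 ^ 2 = (A ^ 2 + u 0 ^ 2) / 2 := by ring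
  rw [e] at h3
  exact h3

lemma hasSum_step_mul {u : ℕ → ℝ} {A B : ℝ} (hu0 : ∀ k, 0 ≤ u k) (hA : HasSum u A)
    (hB : HasSum (fun k : ℕ => (k:ℝ) * u k) B) :
    HasSum (fun k : ℕ => (k:ℝ) * step u k) ((2 * A * B - A ^ 2 + u 0 ^ 2) / 2) := by
  have hku0 : ∀ k : ℕ, 0 ≤ (k:ℝ) * u k := fun k => mul_nonneg (Nat.cast_nonneg _) (hu0 k)
  have h1 := hasSum_conv hku0 hu0 hB hA
  have h2 := hasSum_conv hu0 hku0 hA hB
  have h3 := h1.add h2
  have e1 : ∀ l, conv (fun k : ℕ => (k:ℝ) * u k) u l + conv u (fun k : ℕ => (k:ℝ) * u k) l =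
      (l:ℝ) * conv u u l := by
    intro l
    unfold conv
    rw [← Finset.sum_add_distrib, Finset.mul_sum]
    refine Finset.sum_congr rfl fun x hx => ?_
    rw [Finset.HasAntidiagonal.mem_antidiagonal] at hx
    have : (l:ℝ) = x.1 + x.2 := by rw [← hx]; push_cast; ring
    rw [this]; ring
  simp_rw [e1] at h3
  have h4 := hasSum_shift h3
  have h5 := hasSum_shift (hasSum_conv hu0 hu0 hA hA)
  have h6 := (h4.sub h5).div_const 2
  rw [conv_zero] at h6
  have e2 : (B * A + A * B - ((0:ℕ):ℝ) * (u 0 * u 0) - (A * A - u 0 * u 0)) / 2 =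
      (2 * A * B - A ^ 2 + u 0 ^ 2) / 2 := by
    push_cast; ring
  rw [e2] at h6
  have e3 : (fun k : ℕ => (k:ℝ) * step u k) = fun k : ℕ =>
      (((k + 1 : ℕ) : ℝ) * conv u u (k + 1) - conv u u (k + 1)) / 2 := by
    funext k
    unfold step
    push_cast
    split_ifs with hk
    · subst hk; simp
    · ring
  rw [e3]
  exact h6

/-- A critical weighted law: nonnegative, summable, with equal zeroth and first moments. -/
structure Crit (u : ℕ → ℝ) (A : ℝ) : Prop where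
  nonneg : ∀ k, 0 ≤ u k
  sum : HasSum u A
  crit : HasSum (fun k : ℕ => (k:ℝ) * u k) A

lemma Crit.step {u : ℕ → ℝ} {A : ℝ} (h : Crit u A) :
    Crit (step u) ((A ^ 2 + u 0 ^ 2) / 2) where
  nonneg := step_nonneg h.nonneg
  sum := hasSum_step h.nonneg h.sum
  crit := by
    have := hasSum_step_mul h.nonneg h.sum h.crit
    have e : (2 * A * A - A ^ 2 + u 0 ^ 2) / 2 = (A ^ 2 + u 0 ^ 2) / 2 := by ring
    rwa [e] at this

/-- Tail of a critical law. -/
lemma Crit.tail_le {u : ℕ → ℝ} {A : ℝ} (h : Crit u A) (j : ℕ) :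
    (j:ℝ) * (A - ∑ k ∈ Finset.range (j + 1), u k) ≤ u 0 := by
  have h1 : HasSum (fun k => u (k + (j + 1))) (A - ∑ k ∈ Finset.range (j + 1), u k) :=
    (hasSum_nat_add_iff' (f := u) (j + 1)).2 h.sum
  have h2 := h.crit.sub h.sum
  rw [sub_self] at h2
  have h3 : HasSum (fun k => ((k + (j + 1) : ℕ) : ℝ) * u (k + (j + 1)) - u (k + (j + 1)))
      (0 - ∑ k ∈ Finset.range (j + 1), ((k:ℝ) * u k - u k)) :=
    (hasSum_nat_add_iff' (f := fun k : ℕ => (k:ℝ) * u k - u k) (j + 1)).2 h2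
  have h4 := h1.mul_left (j:ℝ)
  have h5 := hasSum_le (fun k => ?_) h4 h3
  · refine h5.trans ?_
    have h6 : -u 0 ≤ ∑ k ∈ Finset.range (j + 1), ((k:ℝ) * u k - u k) := by
      rw [Finset.sum_range_succ']
      have : 0 ≤ ∑ k ∈ Finset.range j, (((k + 1 : ℕ) : ℝ) * u (k + 1) - u (k + 1)) := by
        refine Finset.sum_nonneg fun k _ => ?_
        have := h.nonneg (k + 1)
        push_cast
        have hk : (0:ℝ) ≤ k := Nat.cast_nonneg k
        nlinarith
      push_cast at this ⊢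
      linarith
    linarith
  · push_cast
    have := h.nonneg (k + (j + 1))
    have hk : (0:ℝ) ≤ k := Nat.cast_nonneg k
    nlinarith

/-- One step for tails. -/
lemma Crit.tail_step {u : ℕ → ℝ} {A : ℝ} (h : Crit u A) (j : ℕ) (hj : 1 ≤ j) :
    (A - ∑ k ∈ Finset.range (j + 1), u k) * (∑ k ∈ Finset.range (j + 1), u k) ≤
      (A ^ 2 + u 0 ^ 2) / 2 - ∑ k ∈ Finset.range j, Pool.Agent.N935.DR.step u k := by
  have h1 : ∑ k ∈ Finset.range j, Pool.Agent.N935.DR.step u k =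
      (∑ l ∈ Finset.range (j + 1), conv u u l - u 0 ^ 2) / 2 + u 0 ^ 2 := by
    unfold Pool.Agent.N935.DR.step
    rw [Finset.sum_add_distrib, Finset.sum_ite_eq' (Finset.range j) 0,
      if_pos (Finset.mem_range.2 (by omega)), Finset.sum_range_succ' (conv u u), conv_zero,
      ← Finset.sum_div]
    ring
  have h2 := sum_conv_le h.nonneg (j + 1)
  set L := ∑ k ∈ Finset.range (j + 1), u k with hL
  have h3 : L ≤ A := sum_le_hasSum _ (fun k _ => h.nonneg k) h.sum
  have h4 : 0 ≤ L := Finset.sum_nonneg fun k _ => h.nonneg k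
  rw [h1]
  nlinarith

end Pool.Agent.N935.DR
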