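import Mathlib
import Pool.Agent.N935.DR.Seq

set_option autoImplicit false

/-!
# Riccati recursion and the growth of tails
-/

namespace Pool.Agent.N935.DR

open Finset Filter Topology

/-- One step of the Riccati comparison. -/
lemma riccati_step {x a q : ℝ} (hx : 8 ≤ x) (ha : 0 ≤ a) (hxa : x * a ≤ 3 / 2)
    (hq1 : q ≤ 1) (hq : 33 / 10 / x ^ 2 ≤ q) :
    (x + 1) * (((1 + a) ^ 2 + (1 - q) ^ 2) / 2 - 1) ≤ x * a - 1 / (2 * x) := by
  have hx0 : 0 < x := by linarith
  set z := 33 / 10 / x ^ 2 with hz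
  have hz0 : 0 < z := by positivity
  have hzx : z * x ^ 2 = 33 / 10 := by rw [hz]; field_simp
  -- q - q^2/2 ≥ z - z^2/2
  have h1 : z - z ^ 2 / 2 ≤ q - q ^ 2 / 2 := by
    have : 0 ≤ (q - z) * (1 - (q + z) / 2) := by
      apply mul_nonneg (by linarith)
      linarith
    nlinarith
  -- x^2 (z - z^2/2) ≥ 16/5
  have h2 : 16 / 5 ≤ (z - z ^ 2 / 2) * x ^ 2 := by
    have h3 : z * z * x ^ 2 = 33 / 10 * z := by
      calc z * z * x ^ 2 = z * (z * x ^ 2) := by ring
        _ = 33 / 10 * z := by rw [hzx]; ring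
    have h4 : z ≤ 33 / 640 := by
      have : z * 64 ≤ z * x ^ 2 := by
        apply mul_le_mul_of_nonneg_left _ hz0.le
        nlinarith
      linarith
    nlinarith
  have h5 : 16 / 5 ≤ (q - q ^ 2 / 2) * x ^ 2 := by
    have : (z - z ^ 2 / 2) * x ^ 2 ≤ (q - q ^ 2 / 2) * x ^ 2 :=
      mul_le_mul_of_nonneg_right h1 (by positivity)
    linarith
  have h6 : (x * a) ^ 2 ≤ 9 / 4 := by
    have : 0 ≤ x * a := by positivity
    nlinarith
  -- multiply by x^2
  have key : ((x + 1) * (((1 + a) ^ 2 + (1 - q) ^ 2) / 2 - 1)) * x ^ 2 ≤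
      (x * a - 1 / (2 * x)) * x ^ 2 := by
    have e1 : ((x + 1) * (((1 + a) ^ 2 + (1 - q) ^ 2) / 2 - 1)) * x ^ 2 =
        x * a * x ^ 2 + (x * a) * x + (x + 1) * ((x * a) ^ 2 / 2 - (q - q ^ 2 / 2) * x ^ 2) := by
      ring
    have e2 : (x * a - 1 / (2 * x)) * x ^ 2 = x * a * x ^ 2 - x / 2 := by
      field_simp
    rw [e1, e2]
    have h7 : (x + 1) * ((x * a) ^ 2 / 2 - (q - q ^ 2 / 2) * x ^ 2) ≤ (x + 1) * (9 / 8 - 16 / 5) := by
      apply mul_le_mul_of_nonneg_left _ (by linarith)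
      linarith
    have h8 : (x * a) * x ≤ 3 / 2 * x := mul_le_mul_of_nonneg_right hxa hx0.le
    linarith
  exact le_of_mul_le_mul_right key (by positivity)

/-- Data of a critical system. -/
structure Sys (u : ℕ → ℕ → ℝ) (A : ℕ → ℝ) : Prop where
  crit : ∀ n, Crit (u n) (A n)
  step : ∀ n, u (n + 1) = step (u n)
  hrec : ∀ n, A (n + 1) = (A n ^ 2 + u n 0 ^ 2) / 2
  pos : ∀ n, 0 < u n 0
  le_one : ∀ n, u n 0 ≤ 1
  one_le : ∀ n, 1 ≤ A n

variable {u : ℕ → ℕ → ℝ} {A : ℕ → ℝ}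

/-- Under a lower bound on the probability of being nonzero, `A n - 1` is at least `3/(2n)`. -/
lemma Sys.riccati (h : Sys u A) (hq : ∀ᶠ n : ℕ in atTop, 33 / 10 / (n:ℝ) ^ 2 ≤ 1 - u n 0) :
    ∀ᶠ n : ℕ in atTop, 3 / 2 < n * (A n - 1) := by
  obtain ⟨N, hN⟩ := eventually_atTop.1 hq
  refine eventually_atTop.2 ⟨max N 8, fun n0 hn0 => ?_⟩
  by_contra hcon
  rw [not_lt] at hcon
  have hn8 : 8 ≤ n0 := le_trans (le_max_right _ _) hn0
  have hnN : N ≤ n0 := le_trans (le_max_left _ _) hn0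
  have claim : ∀ j : ℕ, ((n0 + j : ℕ) : ℝ) * (A (n0 + j) - 1) ≤
      3 / 2 - 1 / 2 * ∑ i ∈ Finset.range j, 1 / ((n0 + i : ℕ) : ℝ) := by
    intro j
    induction j with
    | zero => simpa using hcon
    | succ j ih =>
      have hx : (8:ℝ) ≤ ((n0 + j : ℕ) : ℝ) := by exact_mod_cast (by omega : 8 ≤ n0 + j)
      have hsum : 0 ≤ ∑ i ∈ Finset.range j, 1 / ((n0 + i : ℕ) : ℝ) :=
        Finset.sum_nonneg fun i _ => by positivity
      have h1 := riccati_step (x := ((n0 + j : ℕ) : ℝ)) (a := A (n0 + j) - 1)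
        (q := 1 - u (n0 + j) 0) hx (by linarith [h.one_le (n0 + j)]) (by linarith)
        (by linarith [h.pos (n0 + j)]) (hN (n0 + j) (by omega))
      have e : ((1 + (A (n0 + j) - 1)) ^ 2 + (1 - (1 - u (n0 + j) 0)) ^ 2) / 2 - 1 =
          A (n0 + (j + 1)) - 1 := by
        rw [← add_assoc, h.hrec]; ring
      rw [e] at h1
      have e2 : (((n0 + (j + 1) : ℕ)) : ℝ) = ((n0 + j : ℕ) : ℝ) + 1 := by push_cast; ring
      rw [e2, Finset.sum_range_succ]
      have e3 : 1 / (2 * ((n0 + j : ℕ) : ℝ)) = 1 / 2 * (1 / ((n0 + j : ℕ) : ℝ)) := by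
        field_simp
      rw [e3] at h1
      linarith
  -- divergence of the harmonic series
  have hdiv : Tendsto (fun j : ℕ => ∑ i ∈ Finset.range j, 1 / ((n0 + i : ℕ) : ℝ)) atTop atTop := by
    have h1 : ¬ Summable fun i : ℕ => 1 / ((n0 + i : ℕ) : ℝ) := by
      have h2 : ¬ Summable fun i : ℕ => 1 / (i : ℝ) := Real.not_summable_one_div_natCast
      intro h3
      apply h2
      have h4 : Summable fun i : ℕ => 1 / ((i + n0 : ℕ) : ℝ) := by
        simpa [add_comm] using h3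
      exact (summable_nat_add_iff (f := fun i : ℕ => 1 / (i : ℝ)) n0).1 h4
    exact (not_summable_iff_tendsto_nat_atTop_of_nonneg fun i => by positivity).1 h1
  obtain ⟨j, hj⟩ := (hdiv.eventually_gt_atTop 3).exists
  have h1 := claim j
  have h2 : 0 ≤ ((n0 + j : ℕ) : ℝ) * (A (n0 + j) - 1) :=
    mul_nonneg (Nat.cast_nonneg _) (by linarith [h.one_le (n0 + j)])
  linarith

/-- Tail of the law at time `l` above level `3 L - l`. -/
noncomputable def tl (u : ℕ → ℕ → ℝ) (A : ℕ → ℝ) (L l : ℕ) : ℝ :=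
  A l - ∑ k ∈ Finset.range (3 * L - l + 1), u l k

lemma Sys.tl_step (h : Sys u A) (L l : ℕ) (hl : l < 3 * L) :
    tl u A L l * (∑ k ∈ Finset.range (3 * L - l + 1), u l k) ≤ tl u A L (l + 1) := by
  have h1 := (h.crit l).tail_step (3 * L - l) (by omega)
  unfold tl
  refine h1.trans (le_of_eq ?_)
  rw [h.hrec, h.step]
  have : 3 * L - (l + 1) + 1 = 3 * L - l := by omega
  rw [this]

lemma Sys.tl_nonneg (h : Sys u A) (L l : ℕ) : 0 ≤ tl u A L l := by
  have := sum_le_hasSum (Finset.range (3 * L - l + 1)) (fun k _ => (h.crit l).nonneg k)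
    (h.crit l).sum
  unfold tl
  linarith

lemma Sys.tl_le (h : Sys u A) (L l : ℕ) (hl : l ≤ L) : (2 * L : ℝ) * tl u A L l ≤ 1 := by
  have h1 := (h.crit l).tail_le (3 * L - l)
  have h2 : (2 * L : ℝ) ≤ ((3 * L - l : ℕ) : ℝ) := by
    have : 2 * L ≤ 3 * L - l := by omega
    exact_mod_cast this
  have h3 := h.tl_nonneg L l
  have h4 := mul_le_mul_of_nonneg_right h2 h3
  have h5 := h.le_one l
  unfold tl at *
  linarith

/-- If the law at time `0` is such that ... then its tail is `O(1/L^2)`. -/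
lemma Sys.tail_bound (h : Sys u A) (hq : ∀ᶠ n : ℕ in atTop, 33 / 10 / (n:ℝ) ^ 2 ≤ 1 - u n 0) :
    ∃ C : ℝ, 0 < C ∧ ∀ᶠ L : ℕ in atTop, tl u A L 0 * (L:ℝ) ^ 2 ≤ C := by
  obtain ⟨N1, hN1⟩ := eventually_atTop.1 (h.riccati hq)
  set N := max N1 1 with hN
  have hN1' : N1 ≤ N := le_max_left _ _
  have hNpos : 1 ≤ N := le_max_right _ _
  have hNr : (0:ℝ) < N := by exact_mod_cast hNpos
  set c := ∏ i ∈ Finset.range N, u i 0 with hc
  have hc0 : 0 < c := Finset.prod_pos fun i _ => h.pos i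
  refine ⟨N / (2 * c), by positivity, eventually_atTop.2 ⟨N + 1, fun L hL => ?_⟩⟩
  have hLpos : (0:ℝ) < L := by exact_mod_cast (by omega : 0 < L)
  -- first phase
  have phase1 : ∀ l, l ≤ L → tl u A L 0 * ∏ i ∈ Finset.range l, u i 0 ≤ tl u A L l := by
    intro l
    induction l with
    | zero => intro _; simp
    | succ l ih =>
      intro hl
      have h1 := ih (by omega)
      have h2 := h.tl_step L l (by omega)
      have h3 : u l 0 ≤ ∑ k ∈ Finset.range (3 * L - l + 1), u l k :=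
        Finset.single_le_sum (f := fun k => u l k) (fun k _ => (h.crit l).nonneg k)
          (Finset.mem_range.2 (by omega))
      have h4 := h.tl_nonneg L l
      rw [Finset.prod_range_succ, ← mul_assoc]
      calc tl u A L 0 * (∏ i ∈ Finset.range l, u i 0) * u l 0
          ≤ tl u A L l * u l 0 := mul_le_mul_of_nonneg_right h1 (h.pos l).le
        _ ≤ tl u A L l * ∑ k ∈ Finset.range (3 * L - l + 1), u l k :=
            mul_le_mul_of_nonneg_left h3 h4
        _ ≤ _ := h2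
  -- second phase
  have phase2 : ∀ l, N ≤ l → l ≤ L → tl u A L 0 * c * (l / N) ≤ tl u A L l := by
    intro l hNl
    induction l, hNl using Nat.le_induction with
    | base =>
      intro hl
      rw [div_self hNr.ne', mul_one]
      exact phase1 N hl
    | succ l hNl ih =>
      intro hl
      have h1 := ih (by omega)
      have h2 := h.tl_step L l (by omega)
      have h4 := h.tl_nonneg L l
      have hlpos : (0:ℝ) < l := by exact_mod_cast (by omega : 0 < l)
      have h5 := h.tl_le L l (by omega)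
      have h6 := hN1 l (by omega)
      -- partial sum is at least 1 + 1/l
      have h7 : ((l:ℝ) + 1) / l ≤ ∑ k ∈ Finset.range (3 * L - l + 1), u l k := by
        have e : ∑ k ∈ Finset.range (3 * L - l + 1), u l k = A l - tl u A L l := by
          unfold tl; ring
        rw [e, div_le_iff₀ hlpos]
        have h8 : (2 * l : ℝ) * tl u A L l ≤ 1 := by
          refine le_trans ?_ h5
          apply mul_le_mul_of_nonneg_right _ h4
          have : (l:ℝ) ≤ L := by exact_mod_cast (by omega : l ≤ L)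
          linarith
        nlinarith
      calc tl u A L 0 * c * (((l + 1 : ℕ) : ℝ) / N) = tl u A L 0 * c * (l / N) * (((l:ℝ) + 1) / l)
            := by push_cast; field_simp
        _ ≤ tl u A L l * (((l:ℝ) + 1) / l) := mul_le_mul_of_nonneg_right h1 (by positivity)
        _ ≤ tl u A L l * ∑ k ∈ Finset.range (3 * L - l + 1), u l k :=
            mul_le_mul_of_nonneg_left h7 h4
        _ ≤ _ := h2
  have h1 := phase2 L (by omega) le_rfl
  have h2 := h.tl_le L L le_rfl
  have h3 : (2 * L : ℝ) * (tl u A L 0 * c * (L / N)) ≤ 1 :=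
    (mul_le_mul_of_nonneg_left h1 (by positivity)).trans h2
  rw [le_div_iff₀ (by positivity)]
  have e : (2 * L : ℝ) * (tl u A L 0 * c * (L / N)) = tl u A L 0 * (L:ℝ) ^ 2 * (2 * c) / N := by
    field_simp
  rw [e, div_le_one hNr] at h3
  exact h3

end Pool.Agent.N935.DR
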