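import Mathlib
import Pool.Agent.N935.DR.Chain

set_option autoImplicit false

/-!
# A critical heavy-tailed initial law
-/

namespace Pool.Agent.N935.DR

open Finset Filter Topology

/-- The recursion of the problem for `m = 2`, literally. -/
noncomputable def nextp (f : ℕ → ℝ) (k : ℕ) : ℝ :=
  (∑ x : Fin 2 → Fin (k + 2), if (∑ i, (x i : ℕ)) = k + 1 then ∏ i, f (x i) else 0) +
    (if k = 0 then f 0 ^ 2 else 0)

lemma nextp_eq (f : ℕ → ℝ) (k : ℕ) :
    nextp f k = conv f f (k + 1) + if k = 0 then f 0 ^ 2 else 0 := by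
  unfold nextp
  congr 1
  have e1 : ∑ x : Fin 2 → Fin (k + 2), (if (∑ i, (x i : ℕ)) = k + 1 then ∏ i, f (x i) else 0) =
      ∑ y : Fin (k + 2) × Fin (k + 2), if (y.1 : ℕ) + y.2 = k + 1 then f y.1 * f y.2 else 0 := by
    rw [← (finTwoArrowEquiv (Fin (k + 2))).sum_comp]
    refine Finset.sum_congr rfl fun x _ => ?_
    simp [finTwoArrowEquiv, Fin.sum_univ_two, Fin.prod_univ_two]
  rw [e1, Fintype.sum_prod_type]
  have e2 : ∀ a : Fin (k + 2), ∑ b : Fin (k + 2), (if (a : ℕ) + b = k + 1 then f a * f b else 0) =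
      f a * f (k + 1 - a) := by
    intro a
    have ha : (k + 1 - (a:ℕ)) < k + 2 := by omega
    rw [Finset.sum_eq_single (⟨k + 1 - a, ha⟩ : Fin (k + 2))]
    · rw [if_pos]
      have := a.2
      simp only
      omega
    · intro b _ hb
      rw [if_neg]
      intro hab
      apply hb
      ext
      simp only
      omega
    · intro h; exact absurd (Finset.mem_univ _) h
  rw [Finset.sum_congr rfl fun a _ => e2 a]
  rw [Fin.sum_univ_eq_sum_range (fun a => f a * f (k + 1 - a)) (k + 2)]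
  unfold conv
  rw [Finset.Nat.sum_antidiagonal_eq_sum_range_succ_mk]

/-- Heavy tail weights. -/
noncomputable def w (k : ℕ) : ℝ := if k ≤ 1 then 0 else 1 / ((k:ℝ) * (k:ℝ) ^ (3/2 : ℝ))

lemma w_nonneg (k : ℕ) : 0 ≤ w k := by
  unfold w
  split_ifs
  · exact le_refl _
  · positivity

lemma summable_kw : Summable fun k : ℕ => (k:ℝ) * w k := by
  have h1 : Summable fun k : ℕ => 1 / (k:ℝ) ^ (3/2 : ℝ) :=
    Real.summable_one_div_nat_rpow.2 (by norm_num)
  refine h1.of_nonneg_of_le (fun k => mul_nonneg (Nat.cast_nonneg _) (w_nonneg k)) fun k => ?_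
  unfold w
  split_ifs with hk
  · rw [mul_zero]; positivity
  · have : (k:ℝ) ≠ 0 := by
      have : k ≠ 0 := by omega
      exact_mod_cast this
    apply le_of_eq
    field_simp

lemma summable_w : Summable w := by
  refine summable_kw.of_nonneg_of_le w_nonneg fun k => ?_
  by_cases hk : k ≤ 1
  · unfold w; rw [if_pos hk]; simp
  · have h1 : (1:ℝ) ≤ k := by exact_mod_cast (by omega : 1 ≤ k)
    have := w_nonneg k
    nlinarith

lemma summable_w2 : Summable fun k : ℕ => w k / 2 ^ k := by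
  refine summable_w.of_nonneg_of_le (fun k => by have := w_nonneg k; positivity) fun k => ?_
  apply div_le_self (w_nonneg k)
  exact one_le_pow₀ (by norm_num)

/-- First constant. -/
noncomputable def V : ℝ := ∑' k : ℕ, ((k:ℝ) * w k - w k)
/-- Second constant. -/
noncomputable def V' : ℝ := ∑' k : ℕ, w k / 2 ^ k
/-- Normalisation. -/
noncomputable def c : ℝ := 1 / (1 + V + V')

lemma hasV : HasSum (fun k : ℕ => (k:ℝ) * w k - w k) V :=
  (summable_kw.sub summable_w).hasSum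

lemma hasV' : HasSum (fun k : ℕ => w k / 2 ^ k) V' := summable_w2.hasSum

lemma kw_nonneg (k : ℕ) : 0 ≤ (k:ℝ) * w k - w k := by
  by_cases hk : k ≤ 1
  · unfold w; rw [if_pos hk]; simp
  · have h1 : (1:ℝ) ≤ k := by exact_mod_cast (by omega : 1 ≤ k)
    have := w_nonneg k
    nlinarith

lemma V_pos : 0 < V := by
  have h1 : (fun k : ℕ => (k:ℝ) * w k - w k) 2 ≤ V := by
    have := sum_le_hasSum {2} (fun k _ => kw_nonneg k) hasV
    simpa using this
  refine lt_of_lt_of_le ?_ h1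
  have : 0 < w 2 := by
    unfold w
    rw [if_neg (by norm_num)]
    positivity
  simp only
  push_cast
  linarith

lemma V'_nonneg : 0 ≤ V' := tsum_nonneg fun k => by have := w_nonneg k; positivity

lemma c_pos : 0 < c := by
  have := V_pos
  have := V'_nonneg
  unfold c
  positivity

lemma c_eq : c * (1 + V + V') = 1 := by
  have := V_pos
  have := V'_nonneg
  unfold c
  field_simp

/-- Initial law. -/
noncomputable def p0 (k : ℕ) : ℝ :=
  (if k = 0 then c * V else 0) + (if k = 1 then 1 - c * V - c * V' else 0) + c * (w k / 2 ^ k)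

lemma p0_one_pos : 0 < 1 - c * V - c * V' := by
  have h := c_eq
  have := c_pos
  nlinarith

lemma p0_nonneg (k : ℕ) : 0 ≤ p0 k := by
  have h1 := p0_one_pos
  have h2 := w_nonneg k
  have h3 := c_pos
  have h4 := V_pos
  unfold p0
  have : 0 ≤ c * (w k / 2 ^ k) := by positivity
  have h5 : 0 ≤ c * V := by positivity
  split_ifs <;> linarith

lemma p0_zero_pos : 0 < p0 0 := by
  have h3 := c_pos
  have h4 := V_pos
  unfold p0
  have : w 0 = 0 := by unfold w; simp
  rw [this]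
  simp
  positivity

lemma hasSum_p0 : HasSum p0 1 := by
  have h1 := (hasSum_ite_eq (0:ℕ) (c * V)).add (hasSum_ite_eq (1:ℕ) (1 - c * V - c * V'))
  have h2 := h1.add (hasV'.mul_left c)
  have e : c * V + (1 - c * V - c * V') + c * V' = 1 := by ring
  rw [e] at h2
  exact h2

lemma p0_mul (k : ℕ) : p0 k * 2 ^ k =
    (if k = 0 then c * V else 0) + (if k = 1 then 2 * (1 - c * V - c * V') else 0) + c * w k := by
  unfold p0
  have h2 : (2:ℝ) ^ k ≠ 0 := by positivity
  rcases eq_or_ne k 0 with h | h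
  · subst h
    simp
  · rcases eq_or_ne k 1 with h' | h'
    · subst h'
      rw [if_neg (by norm_num : ¬ (1:ℕ) = 0), if_pos rfl, if_pos rfl]
      field_simp
      ring
    · simp only [if_neg h, if_neg h']
      field_simp
      ring

lemma hasSum_u0 : HasSum (fun k => p0 k * 2 ^ k)
    (c * V + 2 * (1 - c * V - c * V') + c * ∑' k, w k) := by
  simp_rw [p0_mul]
  exact ((hasSum_ite_eq (0:ℕ) (c * V)).add
    (hasSum_ite_eq (1:ℕ) (2 * (1 - c * V - c * V')))).add (summable_w.hasSum.mul_left c)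

lemma hasSum_ku0 : HasSum (fun k : ℕ => (k:ℝ) * (p0 k * 2 ^ k))
    (c * V + 2 * (1 - c * V - c * V') + c * ∑' k, w k) := by
  have h1 := (hasSum_ite_eq (1:ℕ) (2 * (1 - c * V - c * V'))).add (summable_kw.hasSum.mul_left c)
  have e1 : ∑' k : ℕ, (k:ℝ) * w k = V + ∑' k, w k := by
    unfold V
    rw [summable_kw.tsum_sub summable_w]
    ring
  rw [e1] at h1
  have e2 : 2 * (1 - c * V - c * V') + c * (V + ∑' k, w k) =
      c * V + 2 * (1 - c * V - c * V') + c * ∑' k, w k := by ring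
  rw [e2] at h1
  have e3 : (fun k : ℕ => (k:ℝ) * (p0 k * 2 ^ k)) = fun k : ℕ =>
      (if k = 1 then 2 * (1 - c * V - c * V') else 0) + c * ((k:ℝ) * w k) := by
    funext k
    rw [p0_mul]
    rcases eq_or_ne k 0 with h | h
    · subst h; simp
    · rcases eq_or_ne k 1 with h' | h'
      · subst h'; simp
      · simp only [if_neg h, if_neg h']; ring
  rw [e3]
  exact h1

/-- The laws of the recursion. -/
noncomputable def pp : ℕ → ℕ → ℝ
  | 0 => p0
  | n + 1 => nextp (pp n)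

/-- Weighted laws. -/
noncomputable def uu (n k : ℕ) : ℝ := pp n k * 2 ^ k

/-- Total weighted masses. -/
noncomputable def AA : ℕ → ℝ
  | 0 => c * V + 2 * (1 - c * V - c * V') + c * ∑' k, w k
  | n + 1 => (AA n ^ 2 + uu n 0 ^ 2) / 2

lemma uu_step (n : ℕ) : uu (n + 1) = step (uu n) := by
  funext k
  have e1 : uu (n + 1) k = nextp (pp n) k * 2 ^ k := rfl
  rw [e1, nextp_eq]
  unfold step
  have e2 : conv (uu n) (uu n) (k + 1) = conv (pp n) (pp n) (k + 1) * 2 ^ (k + 1) := by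
    unfold conv uu
    rw [Finset.sum_mul]
    refine Finset.sum_congr rfl fun x hx => ?_
    rw [Finset.HasAntidiagonal.mem_antidiagonal] at hx
    rw [← hx, pow_add]
    ring
  rw [e2, pow_succ]
  split_ifs with hk
  · subst hk; simp [uu]; ring
  · ring

lemma pp_nonneg (n k : ℕ) : 0 ≤ pp n k := by
  induction n generalizing k with
  | zero => exact p0_nonneg k
  | succ n ih =>
    have e1 : pp (n + 1) k = nextp (pp n) k := rfl
    rw [e1, nextp_eq]
    have := conv_nonneg ih ih (k + 1)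
    have := sq_nonneg (pp n 0)
    split_ifs <;> linarith

lemma pp_hasSum (n : ℕ) : HasSum (pp n) 1 := by
  induction n with
  | zero => exact hasSum_p0
  | succ n ih =>
    have e1 : pp (n + 1) = fun k => conv (pp n) (pp n) (k + 1) + if k = 0 then pp n 0 ^ 2 else 0 := by
      funext k
      exact nextp_eq (pp n) k
    rw [e1]
    have h1 := hasSum_shift (hasSum_conv (pp_nonneg n) (pp_nonneg n) ih ih)
    have h2 := h1.add (hasSum_ite_eq (0:ℕ) (pp n 0 ^ 2))
    rw [conv_zero] at h2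
    have e2 : 1 * 1 - pp n 0 * pp n 0 + pp n 0 ^ 2 = 1 := by ring
    rw [e2] at h2
    exact h2

lemma pp_zero_pos (n : ℕ) : 0 < pp n 0 := by
  induction n with
  | zero => exact p0_zero_pos
  | succ n ih =>
    have e1 : pp (n + 1) 0 = nextp (pp n) 0 := rfl
    rw [e1, nextp_eq, if_pos rfl]
    have := conv_nonneg (pp_nonneg n) (pp_nonneg n) (0 + 1)
    positivity

lemma uu_crit (n : ℕ) : Crit (uu n) (AA n) := by
  induction n with
  | zero =>
    exact ⟨fun k => mul_nonneg (p0_nonneg k) (by positivity), hasSum_u0, hasSum_ku0⟩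
  | succ n ih =>
    have := ih.step
    rw [← uu_step] at this
    exact this

lemma sys : Sys uu AA where
  crit := uu_crit
  step := uu_step
  hrec := fun n => rfl
  pos := fun n => by
    have := pp_zero_pos n
    simpa [uu] using this
  le_one := fun n => by
    have := sum_le_hasSum {0} (fun k _ => pp_nonneg n k) (pp_hasSum n)
    simpa [uu] using this
  one_le := fun n => by
    refine hasSum_le (fun k => ?_) (pp_hasSum n) (uu_crit n).sum
    exact le_mul_of_one_le_right (pp_nonneg n k) (one_le_pow₀ (by norm_num))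

/-- The tail of the initial law is heavier than `L^(-2)`. -/
lemma tail_low (L : ℕ) (hL : 1 ≤ L) :
    c / (2 * (6 * (L:ℝ)) ^ (3/2 : ℝ)) ≤ tl uu AA L 0 := by
  have hLr : (0:ℝ) < L := by exact_mod_cast hL
  have h1 := sum_le_hasSum (Finset.range (6 * L + 1)) (fun k _ => (uu_crit 0).nonneg k)
    (uu_crit 0).sum
  unfold tl
  have e : ∑ k ∈ Finset.range (6 * L + 1), uu 0 k =
      ∑ k ∈ Finset.range (3 * L - 0 + 1), uu 0 k +
        ∑ k ∈ Finset.range (3 * L), uu 0 (3 * L + 1 + k) := by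
    have : 6 * L + 1 = (3 * L - 0 + 1) + 3 * L := by omega
    rw [this, Finset.sum_range_add]
    rfl
  rw [e] at h1
  have h2 : (3 * L : ℝ) * (c / ((6 * L) * (6 * (L:ℝ)) ^ (3/2 : ℝ))) ≤
      ∑ k ∈ Finset.range (3 * L), uu 0 (3 * L + 1 + k) := by
    have h3 : ∀ k ∈ Finset.range (3 * L), c / ((6 * L) * (6 * (L:ℝ)) ^ (3/2 : ℝ)) ≤
        uu 0 (3 * L + 1 + k) := by
      intro k hk
      rw [Finset.mem_range] at hk
      have e1 : uu 0 (3 * L + 1 + k) = p0 (3 * L + 1 + k) * 2 ^ (3 * L + 1 + k) := rfl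
      rw [e1, p0_mul, if_neg (by omega), if_neg (by omega)]
      unfold w
      rw [if_neg (by omega)]
      have h4 : ((3 * L + 1 + k : ℕ) : ℝ) ≤ 6 * L := by
        have : 3 * L + 1 + k ≤ 6 * L := by omega
        exact_mod_cast this
      have h5 : (0:ℝ) < ((3 * L + 1 + k : ℕ) : ℝ) := by exact_mod_cast (by omega : 0 < 3 * L + 1 + k)
      have h6 : ((3 * L + 1 + k : ℕ) : ℝ) ^ (3/2 : ℝ) ≤ (6 * (L:ℝ)) ^ (3/2 : ℝ) :=
        Real.rpow_le_rpow h5.le h4 (by norm_num)
      rw [zero_add, zero_add, mul_one_div]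
      apply div_le_div_of_nonneg_left c_pos.le (by positivity)
      exact mul_le_mul h4 h6 (by positivity) (by positivity)
    calc (3 * L : ℝ) * (c / ((6 * L) * (6 * (L:ℝ)) ^ (3/2 : ℝ)))
        = ∑ k ∈ Finset.range (3 * L), c / ((6 * L) * (6 * (L:ℝ)) ^ (3/2 : ℝ)) := by
          rw [Finset.sum_const, Finset.card_range, nsmul_eq_mul]; push_cast; ring
      _ ≤ _ := Finset.sum_le_sum h3
  have e3 : (3 * L : ℝ) * (c / ((6 * L) * (6 * (L:ℝ)) ^ (3/2 : ℝ))) =
      c / (2 * (6 * (L:ℝ)) ^ (3/2 : ℝ)) := by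
    field_simp
    ring
  rw [e3] at h2
  linarith

/-- The conclusion: the probability of being nonzero is not asymptotically at least `3.3/n^2`. -/
theorem no_lower : ¬ ∀ᶠ n : ℕ in atTop, 33 / 10 / (n:ℝ) ^ 2 ≤ 1 - uu n 0 := by
  intro hq
  obtain ⟨C, hC, h1⟩ := sys.tail_bound hq
  -- L^(1/2) is unbounded
  have h2 : Tendsto (fun L : ℕ => (L:ℝ) ^ (1/2 : ℝ)) atTop atTop :=
    (tendsto_rpow_atTop (by norm_num)).comp tendsto_natCast_atTop_atTop
  have h3 := h2.eventually_gt_atTop (C * (2 * (6:ℝ) ^ (3/2 : ℝ)) / c)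
  obtain ⟨L, hL1, hL2, hL3⟩ := (h1.and (h3.and (eventually_ge_atTop 1))).exists
  have hLr : (0:ℝ) < L := by exact_mod_cast hL3
  have h4 := tail_low L hL3
  have h5 : c / (2 * (6 * (L:ℝ)) ^ (3/2 : ℝ)) * (L:ℝ) ^ 2 ≤ C :=
    (mul_le_mul_of_nonneg_right h4 (by positivity)).trans hL1
  have e1 : (L:ℝ) ^ 2 = (L:ℝ) ^ (3/2 : ℝ) * (L:ℝ) ^ (1/2 : ℝ) := by
    rw [← Real.rpow_add hLr, ← Real.rpow_natCast]
    norm_num
  have e2 : (6 * (L:ℝ)) ^ (3/2 : ℝ) = (6:ℝ) ^ (3/2 : ℝ) * (L:ℝ) ^ (3/2 : ℝ) :=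
    Real.mul_rpow (by norm_num) hLr.le
  have hLp : 0 < (L:ℝ) ^ (3/2 : ℝ) := by positivity
  have h6p : 0 < (6:ℝ) ^ (3/2 : ℝ) := by positivity
  rw [e1, e2] at h5
  have e3 : c / (2 * ((6:ℝ) ^ (3/2 : ℝ) * (L:ℝ) ^ (3/2 : ℝ))) *
      ((L:ℝ) ^ (3/2 : ℝ) * (L:ℝ) ^ (1/2 : ℝ)) = c * (L:ℝ) ^ (1/2 : ℝ) / (2 * (6:ℝ) ^ (3/2 : ℝ)) := by
    field_simp
  rw [e3, div_le_iff₀ (by positivity)] at h5
  rw [div_lt_iff₀ c_pos] at hL2
  linarith

end Pool.Agent.N935.DR
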